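import Pool.Agent.helper80.EN.Spec

/-!
# Right Engel elements and simple groups (MP_43ab4e_al): row statements

Conventions of helper80/EN/Spec.lean: `com x y = x⁻¹ y⁻¹ x y`, `icom x y n = [x, _n y]`, `RightEngel a`: for all `g`
some `[a, _n g]` is `1`; `HP`, `LocNilp`, `InL` (smallest class with the linear groups, closed under subgroups,
extensions, directed unions).  All rows of that library may be used as theorems: import
`Pool.Agent.helper80.EN.Asm` and use `Pool.Agent.helper80.EN.Asm.aTRF`, `aBAS`, `aHPR`, `aSNB`, `aHLE`, `aRLE`, `aNAE`,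
`aMAI`, `aMAJ`, `aLFI`, `aLAB`, `aLNI`, `aJNN`, ...

THEOREM A.  `H` finitely generated, generated by right Engel elements, `N` normal, `H/N` nilpotent: `N` is finitely
generated.

THEOREM B.  If `a` is a right Engel element of `G`, `a ∉ HP G`, then finitely many conjugates of `a` generate a
subgroup `P` that is not nilpotent, and either `P/γ_ω(P)` is not nilpotent or there are a finitely generated infinite
simple section `S` of `P` and `α ≠ 1` in `Aut S` which is a right Engel element (right `l`-Engel if `a` is) of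
`Inn(S)⟨α⟩`.  Conversely such `α` is not in the Hirsch-Plotkin radical of `Inn(S)⟨α⟩`.
-/

set_option autoImplicit false

namespace Pool.Agent.helper46.ESM

open Subgroup Pool.Agent.helper80.EN

universe u

section Defs

variable {H : Type u} [Group H]

/-- `⟨t^i x t^(-i) : x ∈ X, i ≥ 0⟩`. -/
def Up (X : Set H) (t : H) : Subgroup H := closure {z | ∃ x ∈ X, ∃ i : ℕ, z = t ^ i * x * (t ^ i)⁻¹}

/-- `⟨t^i x t^(-i) : x ∈ X, i ∈ ℤ⟩`. -/
def Al (X : Set H) (t : H) : Subgroup H := closure {z | ∃ x ∈ X, ∃ i : ℤ, z = t ^ i * x * (t ^ i)⁻¹}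

/-- `t^d z t^(-d)` is in `Up X t`. -/
def Dep (X : Set H) (t : H) (d : ℕ) (z : H) : Prop := t ^ d * z * (t ^ d)⁻¹ ∈ Up X t

/-- `H` is generated by right Engel elements. -/
def GenRE (H : Type u) [Group H] : Prop := closure {b : H | RightEngel b} = ⊤

/-- The nilpotent residual: the intersection of the lower central series. -/
def nres (P : Type u) [Group P] : Subgroup P := ⨅ n : ℕ, (⊤ : Subgroup P).lowerCentralSeries n

/-- `Inn(S)⟨α⟩`. -/
def InnExt (S : Type u) [Group S] (α : MulAut S) : Subgroup (MulAut S) :=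
  (MulAut.conj : S →* MulAut S).range ⊔ zpowers α

/-- `S` is isomorphic to a quotient of a subgroup of `G`. -/
def IsSec (S G : Type u) [Group S] [Group G] : Prop :=
  ∃ (D : Subgroup G) (K : Subgroup D) (_ : K.Normal), Nonempty (S ≃* D ⧸ K)

end Defs

/-! ## Block A: finite generation -/

/-- UPM: calculation rules.  PROOF.  (a) conjugation by `t^i` maps the generators of `Up` to generators (`closure_induction`).
(b) `X ⊆ Up` (`i = 0`).  (c) from (a) with `i = d' - d`, `t^d' = t^(d'-d) t^d`.  (d), (e) subgroup.  (f) `t^d t^i = t^i t^d` and (a).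
(g) `closure_induction`: for a generator `t^i x t^(-i)` take `d = |i|` (`t^(d+i) x t^(-(d+i))`, `d + i ≥ 0`), for products the
maximum by (c).  (h) generators are generators (`i : ℕ` as an integer), and `Al` is invariant under conjugation by `t`, `t⁻¹`.
(i) the two sets of generators are equal (`i ↦ -i`). -/
def UPM_stmt : Prop := ∀ (H : Type u) [Group H] (X : Set H) (t : H),
  (∀ z ∈ Up X t, ∀ i : ℕ, t ^ i * z * (t ^ i)⁻¹ ∈ Up X t) ∧
  (∀ x ∈ X, x ∈ Up X t) ∧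
  (∀ z d d', Dep X t d z → d ≤ d' → Dep X t d' z) ∧
  (∀ z w d, Dep X t d z → Dep X t d w → Dep X t d (z * w)) ∧
  (∀ z d, Dep X t d z → Dep X t d z⁻¹) ∧
  (∀ z d (i : ℕ), Dep X t d z → Dep X t d (t ^ i * z * (t ^ i)⁻¹)) ∧
  (∀ z ∈ Al X t, ∃ d, Dep X t d z) ∧
  (Up X t ≤ Al X t ∧ (∀ z ∈ Al X t, t * z * t⁻¹ ∈ Al X t) ∧ (∀ z ∈ Al X t, t⁻¹ * z * t ∈ Al X t)) ∧
  Al X t⁻¹ = Al X t

/-- FPW.  PROOF.  Induction on `m`: `(e t)^(m+1) t^(-(m+1)) = ((e t)^m t^(-m)) (t^m e t^(-m))`; UPM (d), (f). -/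
def FPW_stmt : Prop := ∀ (H : Type u) [Group H] (X : Set H) (t e : H) (C : ℕ), Dep X t C e →
  ∀ m : ℕ, Dep X t C ((e * t) ^ m * (t ^ m)⁻¹)

/-- CTM.  PROOF.  `e = b⁻¹ t b t⁻¹`, `b⁻¹ t b = e t`, `f = (e t)^m t^(-m)`; `[b, t^m] = b⁻¹ t^(-m) b t^m = ((b⁻¹ t b)^m)⁻¹ t^m
= (f t^m)⁻¹ t^m = t^(-m) f⁻¹ t^m`, so `t^(m+C) [b, t^m] t^(-(m+C)) = t^C f⁻¹ t^(-C)`, in `Up` by FPW. -/
def CTM_stmt : Prop := ∀ (H : Type u) [Group H] (X : Set H) (t b : H) (C : ℕ), Dep X t C (b⁻¹ * t * b * t⁻¹) →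
  ∀ m : ℕ, Dep X t (m + C) (com b (t ^ m))

/-- ENG.  PROOF.  Let `c = com b T` and `c_j = T^(-j) c T^j`, `j : ℤ`.  (1) By induction on `n`: `icom c T n = p c_n` with `p` in
`⟨c_0, ..., c_(n-1)⟩` (for `n + 1`: `com (p c_n) T = (p c_n)⁻¹ (T⁻¹ p T) c_(n+1)`).  (2) `icom b T n = 1` implies `icom b T (n+1) = 1`, and
`icom b T (n+1) = icom c T n`; so `c_n ∈ ⟨c_0, ..., c_(n-1)⟩`; conjugating by `T^n` (`z ↦ T^n z T^(-n)`): `c ∈ V1`, where
`V1 = closure {T^j c T^(-j) | j : ℕ, 1 ≤ j}`.  (3) The map `z ↦ T z T⁻¹` maps `closure ({c} ∪ V1)`, which is `V1`, onto `V1`, and `V1` onto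
`V2 = closure {T^j c T^(-j) | 2 ≤ j}`; so `c ∈ V1 = V2 ≤ V`. -/
def ENG_stmt : Prop := ∀ (G : Type u) [Group G] (b T : G) (V : Subgroup G), (∃ n, icom b T n = 1) →
  (∀ j : ℕ, 2 ≤ j → T ^ j * com b T * (T ^ j)⁻¹ ∈ V) → com b T ∈ V

/-- BEN.  PROOF.  ENG for `T = t^m`, `V = Up X t`: `T^j = t^(m j)`, `m + C ≤ m j` for `j ≥ 2`, so CTM and UPM (c). -/
def BEN_stmt : Prop := ∀ (H : Type u) [Group H] (X : Set H) (t b : H) (C m : ℕ), RightEngel b →
  Dep X t C (b⁻¹ * t * b * t⁻¹) → C ≤ m → com b (t ^ m) ∈ Up X t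

/-- THU.  PROOF.  `e = h⁻¹ t h t⁻¹`, `f_i = (e t)^i t^(-i)` (FPW: `Dep C f_i`), `h⁻¹ t^i h = (e t)^i = f_i t^i`.  For `z` in `Up` (`d = 0`)
by `closure_induction`: `h⁻¹ (t^i x t^(-i)) h = f_i (t^i (h⁻¹ x h) t^(-i)) f_i⁻¹`, UPM (d), (e), (f).  In general
`w = t^d z t^(-d) ∈ Up`, `h⁻¹ z h = t^(-d) f_d⁻¹ (h⁻¹ w h) f_d t^d` and
`t^(C+d) (h⁻¹ z h) t^(-(C+d)) = t^C (f_d⁻¹ (h⁻¹ w h) f_d) t^(-C)`. -/
def THU_stmt : Prop := ∀ (H : Type u) [Group H] (X : Set H) (t h : H) (C : ℕ), Dep X t C (h⁻¹ * t * h * t⁻¹) →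
  (∀ x ∈ X, Dep X t C (h⁻¹ * x * h)) → ∀ (d : ℕ) (z : H), Dep X t d z → Dep X t (C + d) (h⁻¹ * z * h)

/-- GEN.  PROOF.  The `h` with the property form a subgroup: `[h h', T] = (h'⁻¹ [h, T] h') [h', T]`, `[h⁻¹, T] = h [h, T]⁻¹ h⁻¹`; by UPM (g) and
the finiteness of `X` there is for every `g` a `C'` with `Dep C' (g⁻¹ t g t⁻¹)` and `Dep C' (g⁻¹ x g)` for all `x ∈ X`, so THU for `h'` and
for `h⁻¹` gives a bound that does not depend on `m`.  Right Engel elements have the property by BEN (`Dep 0`, then UPM (c)).  `GenRE`. -/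
def GEN_stmt : Prop := ∀ (H : Type u) [Group H] (X : Set H) (t : H), X.Finite → GenRE H →
  (∀ h : H, h⁻¹ * t * h * t⁻¹ ∈ Al X t) → (∀ h : H, ∀ x ∈ X, h⁻¹ * x * h ∈ Al X t) →
  ∀ h : H, ∃ C : ℕ, ∀ m : ℕ, C ≤ m → Dep X t C (com h (t ^ m))

/-- UFX.  PROOF.  GEN for `h = x`: `t^(-m) x t^m = x [x, t^m]`, so `Dep C (t^(-m) x t^m)` for all `m ≥ C` (UPM (b), (c), (d)); with `m = C + 1`:
`t^C t^(-(C+1)) x t^(C+1) t^(-C) = t⁻¹ x t ∈ Up X t`.  The second part is the first one for `t⁻¹`: `Al X t⁻¹ = Al X t` and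
`h⁻¹ t⁻¹ h t = (t⁻¹ (h⁻¹ t h t⁻¹) t)⁻¹` is in `Al X t`. -/
def UFX_stmt : Prop := ∀ (H : Type u) [Group H] (X : Set H) (t : H), X.Finite → GenRE H →
  (∀ h : H, h⁻¹ * t * h * t⁻¹ ∈ Al X t) → (∀ h : H, ∀ x ∈ X, h⁻¹ * x * h ∈ Al X t) →
  (∀ x ∈ X, t⁻¹ * x * t ∈ Up X t) ∧ (∀ x ∈ X, t * x * t⁻¹ ∈ Up X t⁻¹)

/-- FGE.  PROOF.  From the first hypothesis and UPM: `U = Up X t` satisfies `t⁻¹ U t ≤ U`, so `U` is normalised by `t`, `t^i x t^(-i) ∈ U`
for all `i : ℤ`, `Al X t = U`.  Every `t⁻¹ x t` (`x ∈ X`, finite) is in `F_M = closure {t^i x t^(-i) | i ≤ M}` for a large `M`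
(`F_M` increasing with union `U`), so `t⁻¹ F_M t ≤ F_M` (generators with `i ≥ 1` go to generators).  So
`t^(-k) F_M t^k ≤ F_M` for all `k : ℕ`.  Likewise `F' = closure {t^(-i) x t^i | i ≤ M'}` satisfies `t F' t⁻¹ ≤ F'`, and
`Al X t = ⋃_i t^(-i) F' t^i`.  `F' ≤ Al X t = ⋃_N t^N F_M t^(-N)` (increasing) is finitely generated, so `F' ≤ G = t^N F_M t^(-N)`
for some `N`, and `t^(-i) F' t^i ≤ t^(N-i) F_M t^(-(N-i)) ≤ G` for all `i : ℕ`.  So `Al X t = G`, which is finitely generated. -/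
def FGE_stmt : Prop := ∀ (H : Type u) [Group H] (X : Set H) (t : H), X.Finite →
  (∀ x ∈ X, t⁻¹ * x * t ∈ Up X t) → (∀ x ∈ X, t * x * t⁻¹ ∈ Up X t⁻¹) → (Al X t).FG

/-- STP.  PROOF.  `K = closure Y`, `Y` finite; every `y ∈ Y` is `e_y t^(n_y)` with `e_y ∈ E` (`E` normal, `mem_sup`).  `X = {e_y}`, so
`K = closure (X ∪ {t})`.  `W = Al X t ≤ E` (`X ⊆ E`, `E` normal).  `W` is normalised by `t`, `t⁻¹` and by the elements of `X ⊆ W`, so by
`closure_induction` every element of `K` is `w t^n` with `w ∈ W`, `n : ℤ`; if it is in `E` then `t^n ∈ E`, `n = 0`.  So `E = Al X t`.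
The hypotheses of UFX: `h⁻¹ t h t⁻¹` is a commutator of `h⁻¹` and `t`, in `⁅K, ⊤⁆ ≤ E`, `h⁻¹ x h ∈ E`.  UFX and FGE. -/
def STP_stmt : Prop := ∀ (H : Type u) [Group H], GenRE H → ∀ (K E : Subgroup H), K.Normal → E.Normal → K.FG →
  ∀ t ∈ K, K = E ⊔ zpowers t → (∀ n : ℤ, t ^ n ∈ E → n = 0) → ⁅K, (⊤ : Subgroup H)⁆ ≤ E → E.FG

/-- CYC.  PROOF.  If `t^n ∈ E` only for `n = 0`: STP.  Otherwise `t^n ∈ E` for some `n > 0`, `E` has finite index in `K` (the cosets of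
`1, t, ..., t^(n-1)`), and subgroups of finite index of finitely generated groups are finitely generated
(`Subgroup.fg_of_index_ne_zero`; use `E.subgroupOf K`). -/
def CYC_stmt : Prop := ∀ (H : Type u) [Group H], GenRE H → ∀ (K E : Subgroup H), K.Normal → E.Normal → K.FG →
  ∀ t ∈ K, K = E ⊔ zpowers t → ⁅K, (⊤ : Subgroup H)⁆ ≤ E → E.FG

/-- ABE.  PROOF.  `K = closure Y`, `Y` finite.  Show by induction on the finite set `Z ⊆ Y` (or on a list) that
`E ⊔ closure (Y \ Z)` is finitely generated: it is `K` for `Z = ∅`, and `E ⊔ closure (Y \ Z) = (E ⊔ closure (Y \ (Z ∪ {y}))) ⊔ zpowers y`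
for `y ∈ Y \ Z`: CYC.  A subgroup `L` with `E ≤ L ≤ K` is normal in `H` because `[L, ⊤] ≤ [K, ⊤] ≤ E ≤ L`. -/
def ABE_stmt : Prop := ∀ (H : Type u) [Group H], GenRE H → ∀ (K E : Subgroup H), K.Normal → E.Normal → K.FG →
  E ≤ K → ⁅K, (⊤ : Subgroup H)⁆ ≤ E → E.FG

/-- NIL (Theorem A).  PROOF.  `K_n = N ⊔ γ_n(H)` (`(⊤ : Subgroup H).lowerCentralSeries n`), normal; `K_0 = ⊤` is finitely generated,
`[K_n, ⊤] ≤ K_(n+1)`; ABE; `K_n = N` for large `n` because `H/N` is nilpotent. -/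
def NIL_stmt : Prop := ∀ (H : Type u) [Group H], Group.FG H → GenRE H → ∀ (N : Subgroup H) (_ : N.Normal),
  Group.IsNilpotent (H ⧸ N) → N.FG

/-! ## Block B: reduction to simple groups -/

/-- FCJ.  PROOF.  `normalClosure {a}` is normal and not contained in `HP G`, so not `LocNilp` (definition of `HP` as a supremum): some
finitely generated `K ≤ normalClosure {a} = closure (conjugates of a)` is not nilpotent.  Every generator of `K` is in the closure
of finitely many conjugates (`Subgroup.exists_finset_of_mem_closure` or directedness).  Subgroups of nilpotent groups are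
nilpotent. -/
def FCJ_stmt : Prop := ∀ (G : Type u) [Group G] (a : G), a ∉ HP G →
  ∃ T : Finset G, (∀ t ∈ T, IsConj a t) ∧ ¬ Group.IsNilpotent (closure (T : Set G))

/-- NLP.  PROOF.  `b` right Engel: `b⁻¹` left Engel (`aRLE`), in `HP P` (`aMAJ`), so `b ∈ HP P`; `HP P = ⊤` is `LocNilp` (`aHPR`), `P` is
finitely generated, so nilpotent (`aTRF`; `⊤ ≃* P`). -/
def NLP_stmt : Prop := ∀ (P : Type u) [Group P], Group.FG P → GenRE P → InL P → Group.IsNilpotent P

/-- QNL.  PROOF.  `Q = P ⧸ ⁅D, D⁆` is finitely generated and generated by right Engel elements (images; `aBAS` (2)); the image `D'` of `D` is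
abelian, so `InL` (`aLAB`), `Q/D'` is isomorphic to `P/D`, nilpotent, so `InL` (`aLNI`, or `aTRF`); `InL.ext`, `InL.sub`; NLP. -/
def QNL_stmt : Prop := ∀ (P : Type u) [Group P], Group.FG P → GenRE P → ∀ (D : Subgroup P) (_ : D.Normal),
  Group.IsNilpotent (P ⧸ D) → Group.IsNilpotent (P ⧸ ⁅D, D⁆)

/-- RES.  PROOF.  `R = nres P` is normal.  `R.FG`: NIL.  If `R = ⊥` then `P ≃ P/R` is nilpotent.  `P/⁅R, R⁆` is nilpotent by QNL, so some
`γ_n(P) ≤ ⁅R, R⁆`, and `R ≤ γ_n(P)`. -/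
def RES_stmt : Prop := ∀ (P : Type u) [Group P], Group.FG P → GenRE P → ¬ Group.IsNilpotent P →
  ∀ _ : (nres P).Normal, Group.IsNilpotent (P ⧸ nres P) → (nres P).FG ∧ nres P ≠ ⊥ ∧ ⁅nres P, nres P⁆ = nres P

/-- NRN: `nres P` is normal (infimum of normal subgroups; `Subgroup.lowerCentralSeries_normal` or similar). -/
def NRN_stmt : Prop := ∀ (P : Type u) [Group P], (nres P).Normal

/-- MXN.  PROOF.  Zorn for the set of normal subgroups `N ≠ ⊤`: the union of a nonempty chain is normal and `≠ ⊤`, as it would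
contain the finitely many generators, so one member of the chain would.  For a maximal `K` the quotient is nontrivial and
a normal subgroup of `D/K` has as preimage `K` or `⊤`. -/
def MXN_stmt : Prop := ∀ (D : Type u) [Group D], Group.FG D → Nontrivial D →
  ∃ (K : Subgroup D) (_ : K.Normal), IsSimpleGroup (D ⧸ K)

/-- PRJ.  PROOF.  `K' = K.comap φ` (preimage under `φ`) is normal, `D/K'` is isomorphic to `D/K`, `K' ≠ K` (otherwise `K.map φ = K`).  Both are
maximal normal, so `K ⊔ K' = ⊤` (if `K ⊔ K' = K` then `K' ≤ K`, `K' = K` by maximality of `K'`).  Given `x0`, `w0` in `D` there is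
`x ∈ x0 K ∩ w0 K'`: write `x0⁻¹ w0 = k k'`, `x = x0 k = w0 k'⁻¹`.  Use this for `x0` over `x̄` and `w0` with `φ (w0⁻¹)` over `ȳ`: then
`φ (x⁻¹) = φ (k' w0⁻¹) ∈ K φ(w0⁻¹)`.  (`IsSimpleGroup` gives the maximality of `K`: a normal `L ≥ K` has image `⊥` or `⊤`.) -/
def PRJ_stmt : Prop := ∀ (D : Type u) [Group D] (K : Subgroup D) (_ : K.Normal) (φ : D ≃* D), IsSimpleGroup (D ⧸ K) →
  K.map φ.toMonoidHom ≠ K → ∀ x y : D ⧸ K, ∃ z : D, QuotientGroup.mk' K z = x ∧ QuotientGroup.mk' K (φ z⁻¹) = y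

/-- EGS.  PROOF.  For `y x` in place of `y`: `icom (y x) x (n+1) = x⁻¹ (icom y x (n+1)) x` for all `n` (`com (y x) x = x⁻¹ (com y x) x`, then
induction, `com (x⁻¹ c x) x = x⁻¹ (com c x) x`).  So `icom (y x) x n = 1` implies `icom y x (n+1) = 1`. -/
def EGS_stmt : Prop := ∀ (G : Type u) [Group G] (x y : G) (n : ℕ), icom (y * x) x n = 1 → icom y x (n + 1) = 1

/-- CR1.  PROOF.  PRJ gives `z` with `mk z = x`, `mk (φ z⁻¹) = y`; `mk (icom (φ z⁻¹ * z) z n) = icom (y x) x n` (`aBAS` (2)); EGS. -/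
def CR1_stmt : Prop := ∀ (D : Type u) [Group D] (K : Subgroup D) (_ : K.Normal) (φ : D ≃* D), IsSimpleGroup (D ⧸ K) →
  K.map φ.toMonoidHom ≠ K → ∀ x y : D ⧸ K, ∃ z : D, ∀ n, icom (φ z⁻¹ * z) z n = 1 → icom y x (n + 1) = 1

/-- CR2.  PROOF.  The `p` with `K.map (MulAut.conjNormal p) = K` form a subgroup, so all `p`.  `ρ p` is the automorphism of `D/K`
induced by `MulAut.conjNormal p` (`QuotientGroup.congr`); `ρ` is multiplicative because `MulAut.conjNormal` is. -/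
def CR2_stmt : Prop := ∀ (P : Type u) [Group P] (D : Subgroup P) [D.Normal] (K : Subgroup D) (_ : K.Normal) (T : Set P),
  closure T = ⊤ → (∀ a ∈ T, K.map (MulAut.conjNormal a : MulAut D).toMonoidHom = K) →
  ∃ ρ : P →* MulAut (D ⧸ K), ∀ (p : P) (d : D),
    ρ p (QuotientGroup.mk' K d) = QuotientGroup.mk' K (MulAut.conjNormal p d)

/-- CEN.  PROOF.  Let `B = InnExt S α`, `I ≤ B` the image of `S` (`Inn S`), normal in `B` (`α conj(s) α⁻¹ = conj(α s)`), isomorphic to `S` (the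
centre of `S` is trivial, being normal and `≠ S`).  `HP B` is normal and `LocNilp` (`aHPR`).  The preimage of `HP B` in `S` is normal:
`⊥` or `⊤`.  If it is `⊤` then `I ≤ HP B` is finitely generated, so nilpotent, so `S` is nilpotent and simple, so abelian (its
commutator subgroup is not `S`): contradiction.  So `HP B ⊓ I = ⊥`, and `α ∈ HP B` commutes with `I` (commutators are in both normal
subgroups): `conj(α s) = conj s`, `α s = s` for all `s`. -/
def CEN_stmt : Prop := ∀ (S : Type u) [Group S] (α : MulAut S), IsSimpleGroup S → Group.FG S →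
  (∃ x y : S, x * y ≠ y * x) → ∀ β : InnExt S α, β ∈ HP (InnExt S α) → β = 1

/-- SNL.  PROOF.  `B = InnExt S α`.  If `InL S` then `InL B` (`Inn S` normal in `B`, an image of `S` under an isomorphism; `B/Inn S` is
cyclic, so abelian, `aLAB`; `InL.ext`, `InL.sub`).  `α` (as an element `⟨α, _⟩` of `B`) is right Engel, so its inverse is left
Engel (`aRLE`), in `HP B` (`aMAJ`), so `α = 1` by CEN. -/
def SNL_stmt : Prop := ∀ (S : Type u) [Group S] (α : MulAut S), IsSimpleGroup S → Group.FG S →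
  (∃ x y : S, x * y ≠ y * x) → α ≠ 1 → (∀ x ∈ InnExt S α, ∃ n, icom α x n = 1) → ¬ InL S

/-- GNB.  PROOF.  `B = InnExt S α`, `a = ⟨α, _⟩`.  The normal closure `L` of `a` in `B` contains the `a⁻¹ a^s` (`s ∈ Inn S`), some `≠ 1`
(otherwise `α` centralises `Inn S`, `α = 1`, see CEN); these are in `Inn S`, and `L ⊓ Inn S` is normal in `Inn S`, simple; so
`Inn S ≤ L`, `L = ⊤`.  `B` is finitely generated (images of the generators of `S`, and `a`), so finitely many conjugates of `a`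
generate `B`. -/
def GNB_stmt : Prop := ∀ (S : Type u) [Group S] (α : MulAut S) (a : InnExt S α), (a : MulAut S) = α → IsSimpleGroup S →
  Group.FG S → (∃ x y : S, x * y ≠ y * x) → α ≠ 1 →
  ∃ T : Finset (InnExt S α), (∀ t ∈ T, IsConj a t) ∧ closure (T : Set (InnExt S α)) = ⊤

/-- SIM (Theorem B, first half, inside a finitely generated group `P`).  PROOF.  `D = nres P`; RES; MXN for `D`: `K`, `S = D/K` simple,
finitely generated, not abelian (`D` is perfect, so `S` is).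
Case 1: `K.map (MulAut.conjNormal a⁻¹) ≠ K` for some `a ∈ T`.  `φ = MulAut.conjNormal a⁻¹`, `φ d = a⁻¹ d a`, and for `z ∈ D`:
`com a z = φ z⁻¹ * z`, `icom a z (n+1) = icom (φ z⁻¹ * z) z n` (in `D`).  So by CR1 for all `x y : S` there is `n` with
`icom y x (n+1) = 1`, where `n + 1` can be the exponent of `a` at `z` (if `icom a z m = 1` then `icom a z (m+1) = 1`, so `n = m` works;
for `RightNEngel l a`: `l = n + 1` gives exponent `l`; `l = 0` means `a = 1` and `K.map φ = K`).  Take `α = MulAut.conj s` for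
`s ≠ 1`: `α ≠ 1` (trivial centre), `InnExt S α = range conj`, `icom (conj s) (conj y) n = conj (icom s y n)`.
Case 2: otherwise `K.map (MulAut.conjNormal a) = K` for all `a ∈ T`; CR2: `ρ`.  `ρ d = conj (mk d)` for `d ∈ D`.  If `ρ a = 1` for all
`a ∈ T` then `ρ = 1` and `S` is abelian.  So `α = ρ a ≠ 1` for some `a ∈ T`, `InnExt S α ≤ ρ.range`, and
`icom (ρ a) (ρ p) n = ρ (icom a p n)`. -/
def SIM_stmt : Prop := ∀ (P : Type u) [Group P] (T : Finset P), closure (T : Set P) = ⊤ → (∀ a ∈ T, RightEngel a) →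
  ¬ Group.IsNilpotent P → ∀ _ : (nres P).Normal, Group.IsNilpotent (P ⧸ nres P) →
  ∃ (S : Type u) (_ : Group S) (α : MulAut S), IsSimpleGroup S ∧ Group.FG S ∧ (∃ x y : S, x * y ≠ y * x) ∧ IsSec S P ∧
    α ≠ 1 ∧ (∀ x ∈ InnExt S α, ∃ n, icom α x n = 1) ∧
    ∀ l : ℕ, (∀ a ∈ T, RightNEngel l a) → ∀ x ∈ InnExt S α, icom α x l = 1

/-- FIN: the main theorem.  PROOF.  FCJ: `T0`, `P = closure T0` not nilpotent, `T` = the elements of `T0` as elements of `P`.  Conjugates of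
right (`l`-)Engel elements are right (`l`-)Engel (`aBAS` (1)), also in the subgroup `P`.  SIM.  `¬ InL S` by SNL, `Infinite S` because
finite groups are `InL` (`aLFI`). -/
def FIN_stmt : Prop := ∀ (G : Type u) [Group G] (a : G), RightEngel a → a ∉ HP G →
  ∃ T : Finset G, (∀ t ∈ T, IsConj a t) ∧ ¬ Group.IsNilpotent (closure (T : Set G)) ∧
    ∀ _ : (nres (closure (T : Set G))).Normal, Group.IsNilpotent (closure (T : Set G) ⧸ nres (closure (T : Set G))) →
    ∃ (S : Type u) (_ : Group S) (α : MulAut S), IsSimpleGroup S ∧ Group.FG S ∧ Infinite S ∧ ¬ InL S ∧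
      IsSec S (closure (T : Set G)) ∧ α ≠ 1 ∧ (∀ x ∈ InnExt S α, ∃ n, icom α x n = 1) ∧
      ∀ l : ℕ, RightNEngel l a → ∀ x ∈ InnExt S α, icom α x l = 1

end Pool.Agent.helper46.ESM
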