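import Pool.Agent.helper80.EN.Asm
import Pool.Agent.helper46.ESM.Spec

set_option autoImplicit false

/-! # ESM: row FIN -/

namespace Pool.Agent.helper46.ESM

open Subgroup Pool.Agent.helper80.EN

universe u

theorem FINx_conj {G : Type u} [Group G] (a t : G) (h : IsConj a t) (g : G) :
    ∃ g' : G, ∀ n, icom a g' n = 1 → icom t g n = 1 := by
  obtain ⟨c, hc⟩ := isConj_iff.1 h
  refine ⟨c⁻¹ * g * c, fun n hn => ?_⟩
  have h9 := (Pool.Agent.helper80.EN.Asm.aBAS G).1 a (c⁻¹ * g * c) c⁻¹ n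
  rw [hn] at h9
  have e1 : c⁻¹⁻¹ * a * c⁻¹ = t := by rw [inv_inv]; exact hc
  have e2 : c⁻¹⁻¹ * (c⁻¹ * g * c) * c⁻¹ = g := by group
  rw [e1, e2] at h9
  rw [h9]; group

theorem FINx_sub {G : Type u} [Group G] (P : Subgroup G) (t g : P) (n : ℕ) (h : icom (t : G) (g : G) n = 1) :
    icom t g n = 1 := by
  have := (Pool.Agent.helper80.EN.Asm.aBAS P).2.1 G P.subtype t g n
  exact Subtype.ext (this.trans h)

theorem FINx (hFCJ : FCJ_stmt.{u}) (hSIM : SIM_stmt.{u}) (hSNL : SNL_stmt.{u}) : FIN_stmt.{u} := by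
  classical
  intro G _ a ha hHP
  obtain ⟨T0, hT0, hnil⟩ := hFCJ G a hHP
  refine ⟨T0, hT0, hnil, fun hN hQ => ?_⟩
  set T : Finset (closure (T0 : Set G)) :=
    T0.attach.image (fun t => ⟨t.1, subset_closure t.2⟩) with hT
  have hmem : ∀ t : closure (T0 : Set G), t ∈ T ↔ (t : G) ∈ T0 := by
    intro t
    rw [hT, Finset.mem_image]
    constructor
    · rintro ⟨s, -, rfl⟩
      exact s.2
    · intro h
      exact ⟨⟨t.1, h⟩, Finset.mem_attach _ _, rfl⟩
  have hcl : closure (T : Set (closure (T0 : Set G))) = ⊤ := by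
    have h1 : (T : Set (closure (T0 : Set G))) = ((↑) : closure (T0 : Set G) → G) ⁻¹' (T0 : Set G) := by
      ext t
      exact hmem t
    rw [h1]
    exact closure_closure_coe_preimage
  have hRE : ∀ t ∈ T, RightEngel t := by
    intro t ht g
    obtain ⟨g', hg'⟩ := FINx_conj a t (hT0 _ ((hmem t).1 ht)) g
    obtain ⟨n, hn⟩ := ha g'
    exact ⟨n, FINx_sub _ t g n (hg' n hn)⟩
  obtain ⟨S, instS, α, h1, h2, h3, h4, h5, h6, h7⟩ := hSIM _ T hcl hRE hnil hN hQ
  have hL := hSNL S α h1 h2 h3 h5 h6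
  refine ⟨S, instS, α, h1, h2, ?_, hL, h4, h5, h6, ?_⟩
  · by_contra hf
    rw [not_infinite_iff_finite] at hf
    exact hL (Pool.Agent.helper80.EN.Asm.aLFI S hf)
  · intro l hl
    refine h7 l fun t ht g => ?_
    obtain ⟨g', hg'⟩ := FINx_conj a t (hT0 _ ((hmem t).1 ht)) g
    exact FINx_sub _ t g l (hg' l (hl g'))

end Pool.Agent.helper46.ESM
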