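import Pool.Agent.helper46.ESM.FGE

set_option autoImplicit false

/-! # ESM: rows STP, CYC, ABE, NIL -/

namespace Pool.Agent.helper46.ESM

open Subgroup Pool.Agent.helper80.EN
open scoped commutatorElement

universe u

theorem STP_dec {H : Type u} [Group H] (E : Subgroup H) (hE : E.Normal) (t y : H) (hy : y ∈ E ⊔ zpowers t) :
    ∃ n : ℤ, y * (t ^ n)⁻¹ ∈ E := by
  have h : y ∈ ((E ⊔ zpowers t : Subgroup H) : Set H) := hy
  rw [Subgroup.normal_mul] at h
  obtain ⟨e, he, z, hz, rfl⟩ := Set.mem_mul.1 h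
  obtain ⟨n, rfl⟩ := mem_zpowers_iff.1 hz
  exact ⟨n, by rw [mul_inv_cancel_right]; exact he⟩

theorem STP_com {H : Type u} [Group H] (K E : Subgroup H) (hcom : ⁅K, (⊤ : Subgroup H)⁆ ≤ E) (h k : H) (hk : k ∈ K) :
    h * k * h⁻¹ * k⁻¹ ∈ E := by
  apply hcom
  rw [commutator_comm]
  exact commutator_mem_commutator (mem_top h) hk

theorem STP : STP_stmt.{u} := by
  classical
  intro H _ hgen K E hK hE hFG t ht hKt hinj hcom
  obtain ⟨Y, hY⟩ := hFG
  have h1 : ∀ y ∈ Y, ∃ n : ℤ, y * (t ^ n)⁻¹ ∈ E := by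
    intro y hy
    apply STP_dec E hE
    rw [← hKt, ← hY]
    exact subset_closure hy
  choose! n hn using h1
  set X : Set H := (fun y => y * (t ^ n y)⁻¹) '' (Y : Set H) with hX
  have hXf : X.Finite := Y.finite_toSet.image _
  have hXE : ∀ x ∈ X, x ∈ E := by
    rintro _ ⟨y, hy, rfl⟩
    exact hn y hy
  have hXA : ∀ x ∈ X, x ∈ Al X t := fun x hx => subset_closure ⟨x, hx, 0, by simp⟩
  have hWE : Al X t ≤ E := by
    unfold Al
    rw [closure_le]
    rintro z ⟨x, hx, i, rfl⟩
    exact hE.conj_mem x (hXE x hx) (t ^ i)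
  have hdec : ∀ k ∈ K, ∃ m : ℤ, k * (t ^ m)⁻¹ ∈ Al X t := by
    intro k hk
    rw [← hY] at hk
    induction hk using closure_induction with
    | mem y hy => exact ⟨n y, hXA _ ⟨y, hy, rfl⟩⟩
    | one => exact ⟨0, by simp⟩
    | mul a b _ _ ha hb =>
      obtain ⟨p, hp⟩ := ha
      obtain ⟨q, hq⟩ := hb
      refine ⟨p + q, ?_⟩
      have e : a * b * (t ^ (p + q))⁻¹ = (a * (t ^ p)⁻¹) * (t ^ p * (b * (t ^ q)⁻¹) * (t ^ p)⁻¹) := by
        rw [add_comm, zpow_add]; group
      rw [e]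
      exact mul_mem hp (UPM_h X t p _ hq)
    | inv a _ ha =>
      obtain ⟨p, hp⟩ := ha
      refine ⟨-p, ?_⟩
      have e : a⁻¹ * (t ^ (-p))⁻¹ = t ^ (-p) * (a * (t ^ p)⁻¹)⁻¹ * (t ^ (-p))⁻¹ := by
        rw [zpow_neg]; group
      rw [e]
      exact UPM_h X t (-p) _ (inv_mem hp)
  have hEW : E = Al X t := by
    refine le_antisymm (fun e he => ?_) hWE
    have heK : e ∈ K := by rw [hKt]; exact le_sup_left (a := E) he
    obtain ⟨m, hm⟩ := hdec e heK
    have h2 : t ^ m ∈ E := by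
      have h3 := mul_mem (inv_mem (hWE hm)) he
      have e' : (e * (t ^ m)⁻¹)⁻¹ * e = t ^ m := by group
      rwa [e'] at h3
    rw [hinj m h2] at hm
    simpa using hm
  obtain ⟨u1, u2⟩ := UFX H X t hXf hgen
    (fun h => by
      rw [← hEW]
      have := STP_com K E hcom h⁻¹ t ht
      rwa [inv_inv] at this)
    (fun h x hx => by
      rw [← hEW]
      have := hE.conj_mem x (hXE x hx) h⁻¹
      rwa [inv_inv] at this)
  rw [hEW]
  exact FGE H X t hXf u1 u2

theorem CYC : CYC_stmt.{u} := by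
  intro H _ hgen K E hK hE hFG t ht hKt hcom
  by_cases hinj : ∀ n : ℤ, t ^ n ∈ E → n = 0
  · exact STP H hgen K E hK hE hFG t ht hKt hinj hcom
  push Not at hinj
  obtain ⟨n, hn, hn0⟩ := hinj
  have hN : t ^ n.natAbs ∈ E := by
    rcases Int.natAbs_eq n with h | h
    · rw [h, zpow_natCast] at hn; exact hn
    · rw [h, zpow_neg, zpow_natCast] at hn
      simpa using inv_mem hn
  have hNpos : 0 < n.natAbs := Int.natAbs_pos.2 hn0
  have hEK : E ≤ K := by rw [hKt]; exact le_sup_left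
  have hfin : Finite (K ⧸ E.subgroupOf K) := by
    refine Finite.of_surjective (fun i : Fin n.natAbs => (QuotientGroup.mk (⟨t ^ (i : ℕ), K.pow_mem ht _⟩ : K) : K ⧸ E.subgroupOf K)) ?_
    intro q
    obtain ⟨k, rfl⟩ := QuotientGroup.mk_surjective q
    obtain ⟨m, hm⟩ := STP_dec E hE t k (by rw [← hKt]; exact k.2)
    have hr0 : 0 ≤ m % n.natAbs := Int.emod_nonneg _ (by omega)
    have hrl : m % n.natAbs < n.natAbs := Int.emod_lt_of_pos _ (by omega)
    refine ⟨⟨(m % n.natAbs).toNat, by omega⟩, ?_⟩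
    rw [QuotientGroup.eq, mem_subgroupOf]
    show (t ^ (m % n.natAbs).toNat)⁻¹ * (k : H) ∈ E
    have h1 : t ^ (m % n.natAbs).toNat = t ^ (m % n.natAbs) := by
      rw [← zpow_natCast, Int.toNat_of_nonneg hr0]
    have h2 : t ^ m = (t ^ n.natAbs) ^ (m / n.natAbs) * t ^ (m % n.natAbs) := by
      rw [← zpow_natCast t n.natAbs, ← zpow_mul, ← zpow_add, Int.mul_ediv_add_emod]
    rw [h1]
    have h3 : (t ^ (m % n.natAbs))⁻¹ * (k : H) = (t ^ (m % n.natAbs))⁻¹ * (((k : H) * (t ^ m)⁻¹) *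
        (t ^ n.natAbs) ^ (m / n.natAbs)) * ((t ^ (m % n.natAbs))⁻¹)⁻¹ := by
      rw [h2]; group
    rw [h3]
    exact hE.conj_mem _ (mul_mem hm (zpow_mem hN _)) _
  have hfi : (E.subgroupOf K).FiniteIndex := Subgroup.finiteIndex_of_finite_quotient
  have hKfg : Group.FG K := (Group.fg_iff_subgroup_fg K).2 hFG
  have h4 : Group.FG (E.subgroupOf K) := Subgroup.fg_of_index_ne_zero _
  have h5 : (E.subgroupOf K).FG := (Group.fg_iff_subgroup_fg _).1 h4
  have h6 := FGE_map K.subtype _ h5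
  rwa [subgroupOf_map_subtype, inf_of_le_left hEK] at h6

theorem ABE_normal {H : Type u} [Group H] (K E L : Subgroup H) (hcom : ⁅K, (⊤ : Subgroup H)⁆ ≤ E) (h1 : E ≤ L)
    (h2 : L ≤ K) : L.Normal := by
  refine ⟨fun l hl g => ?_⟩
  have h3 := h1 (STP_com K E hcom g l (h2 hl))
  have h4 := mul_mem h3 hl
  rwa [inv_mul_cancel_right] at h4

theorem ABE : ABE_stmt.{u} := by
  classical
  intro H _ hgen K E hK hE hFG hEK hcom
  have key : ∀ Z : Finset H, (∀ z ∈ Z, z ∈ K) → (E ⊔ closure (Z : Set H)).FG → E.FG := by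
    intro Z
    induction Z using Finset.induction_on with
    | empty =>
      intro _ h
      simpa using h
    | insert y Z _ ih =>
      intro hZ h
      apply ih (fun z hz => hZ z (Finset.mem_insert_of_mem hz))
      have hyK : y ∈ K := hZ y (Finset.mem_insert_self _ _)
      have hZK : closure (Z : Set H) ≤ K := by
        rw [closure_le]
        intro z hz
        exact hZ z (Finset.mem_insert_of_mem hz)
      have hEL : E ⊔ closure (Z : Set H) ≤ K := sup_le hEK hZK
      have e : E ⊔ closure ((insert y Z : Finset H) : Set H) = (E ⊔ closure (Z : Set H)) ⊔ zpowers y := by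
        rw [Finset.coe_insert, Set.insert_eq, Subgroup.closure_union, ← zpowers_eq_closure, sup_assoc,
          sup_comm (zpowers y)]
      have hL : (E ⊔ closure (Z : Set H)) ⊔ zpowers y ≤ K := sup_le hEL (by rw [zpowers_le]; exact hyK)
      rw [e] at h
      refine CYC H hgen _ (E ⊔ closure (Z : Set H)) (ABE_normal K E _ hcom (le_sup_left.trans le_sup_left) hL)
        (ABE_normal K E _ hcom le_sup_left hEL) h y ?_ rfl ?_
      · exact le_sup_right (a := E ⊔ closure (Z : Set H)) (mem_zpowers y)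
      · exact ((commutator_mono hL le_rfl).trans hcom).trans le_sup_left
  obtain ⟨Y, hY⟩ := hFG
  apply key Y
  · intro z hz
    rw [← hY]; exact subset_closure hz
  · rw [hY, sup_of_le_right hEK]
    exact ⟨Y, hY⟩

theorem NIL : NIL_stmt.{u} := by
  intro H _ hFG hgen N hN hnil
  have hnorm : ∀ n, (N ⊔ (⊤ : Subgroup H).lowerCentralSeries n).Normal := fun n => inferInstance
  have hstep : ∀ n, (N ⊔ (⊤ : Subgroup H).lowerCentralSeries n).FG := by
    intro n
    induction n with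
    | zero =>
      have : N ⊔ (⊤ : Subgroup H).lowerCentralSeries 0 = ⊤ := by
        rw [Subgroup.lowerCentralSeries_zero, sup_top_eq]
      rw [this]
      exact hFG.1
    | succ n ih =>
      refine ABE H hgen _ (N ⊔ (⊤ : Subgroup H).lowerCentralSeries (n + 1)) (hnorm n) (hnorm (n + 1)) ih ?_ ?_
      · exact sup_le_sup_left ((⊤ : Subgroup H).lowerCentralSeries_antitone (Nat.le_succ n)) _
      · rw [commutator_le]
        intro x hx h _
        have hx' : x ∈ ((N ⊔ (⊤ : Subgroup H).lowerCentralSeries n : Subgroup H) : Set H) := hx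
        rw [Subgroup.normal_mul] at hx'
        obtain ⟨ν, hν, g, hg, rfl⟩ := Set.mem_mul.1 hx'
        have e : ⁅ν * g, h⁆ = ν * ⁅g, h⁆ * (h * ν⁻¹ * h⁻¹) := by
          rw [commutatorElement_def, commutatorElement_def]; group
        rw [e]
        have h1 : N ≤ N ⊔ (⊤ : Subgroup H).lowerCentralSeries (n + 1) := le_sup_left
        have h2 : (⊤ : Subgroup H).lowerCentralSeries (n + 1) ≤ N ⊔ (⊤ : Subgroup H).lowerCentralSeries (n + 1) :=
          le_sup_right
        refine mul_mem (mul_mem (h1 hν) (h2 ?_)) (h1 (hN.conj_mem _ (inv_mem hν) h))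
        rw [Subgroup.lowerCentralSeries_succ]
        exact commutator_mem_commutator hg (mem_top h)
  obtain ⟨n, hn⟩ := Subgroup.nilpotent_iff_lowerCentralSeries.1 hnil
  have h1 : (⊤ : Subgroup H).lowerCentralSeries n ≤ N := by
    have h2 := map_lowerCentralSeries (⊤ : Subgroup H) (QuotientGroup.mk' N) n
    rw [← MonoidHom.range_eq_map, QuotientGroup.range_mk', hn] at h2
    intro x hx
    have h3 : QuotientGroup.mk' N x ∈ ((⊤ : Subgroup H).lowerCentralSeries n).map (QuotientGroup.mk' N) := ⟨x, hx, rfl⟩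
    rw [h2, mem_bot] at h3
    exact (QuotientGroup.eq_one_iff x).1 h3
  have h4 := hstep n
  rwa [sup_of_le_left h1] at h4

end Pool.Agent.helper46.ESM
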