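import Pool.Agent.helper80.EN.Asm2
import Pool.Agent.helper46.ESM.NIL
import Pool.Agent.helper97.ES.CR1
import Pool.Agent.helper97.ES.PRJ
import Pool.Agent.helper76.ES.CR2
import Pool.Agent.helper76.ES.NRN
import Pool.Agent.helper77.ES.EGS
import Pool.Agent.helper89.ES.FCJ
import Pool.Agent.helper27.ES.CEN
import Pool.Agent.helper27.ES.GNB
import Pool.Agent.helper79.ES.NLP
import Pool.Agent.helper13.ES.QNL
import Pool.Agent.helper32.ES.RES
import Pool.Agent.helper41.ES.SIM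
import Pool.Agent.helper78.ES.SNL
import Pool.Agent.helper48.ES.MXN
import Pool.Agent.helper46.ESM.FIN

set_option autoImplicit false

/-! # Assembly of the rows on right Engel elements and simple groups -/

namespace Pool.Agent.helper46.ESM.Asm

open Pool.Agent.helper80.EN Pool.Agent.helper46.ESM

universe u

theorem aNIL : NIL_stmt.{u} := NIL
theorem aEGS : EGS_stmt.{u} := EGS
theorem aPRJ : PRJ_stmt.{u} := PRJ
theorem aCR1 : CR1_stmt.{u} := CR1 aPRJ aEGS
theorem aCR2 : CR2_stmt.{u} := CR2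
theorem aNRN : NRN_stmt.{u} := NRN
theorem aFCJ : FCJ_stmt.{u} := FCJ
theorem aCEN : CEN_stmt.{u} := CEN
theorem aGNB : GNB_stmt.{u} := GNB
theorem aNLP : NLP_stmt.{u} := NLP
theorem aQNL : QNL_stmt.{u} := QNL aNLP
theorem aRES : RES_stmt.{u} := RES aNIL aQNL
theorem aMXN : MXN_stmt.{u} := MXN
theorem aSIM : SIM_stmt.{u} := SIM aRES aMXN aCR1 aCR2
theorem aSNL : SNL_stmt.{u} :=
  SNL aCEN Pool.Agent.helper80.EN.Asm.aRLE Pool.Agent.helper80.EN.Asm.aMAJ Pool.Agent.helper80.EN.Asm.aLAB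

theorem aFIN : FIN_stmt.{u} := FINx aFCJ aSIM aSNL

end Pool.Agent.helper46.ESM.Asm
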