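import Pool.Agent.helper46.ESM.GEN

set_option autoImplicit false

/-! # ESM: rows FGE, STP, CYC, ABE, NIL -/

namespace Pool.Agent.helper46.ESM

open Subgroup Pool.Agent.helper80.EN

universe u

section

variable {H : Type u} [Group H]

/-- `⟨t^i x t^(-i) : x ∈ X, i ≤ M⟩` -/
def FGE_F (X : Set H) (t : H) (M : ℕ) : Subgroup H :=
  closure {z | ∃ x ∈ X, ∃ i : ℕ, i ≤ M ∧ z = t ^ i * x * (t ^ i)⁻¹}

theorem FGE_fg (X : Set H) (t : H) (M : ℕ) (hX : X.Finite) : (FGE_F X t M).FG := by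
  have h : {z | ∃ x ∈ X, ∃ i : ℕ, i ≤ M ∧ z = t ^ i * x * (t ^ i)⁻¹} =
      (fun p : H × ℕ => t ^ p.2 * p.1 * (t ^ p.2)⁻¹) '' (X ×ˢ Set.Iic M) := by
    ext z
    constructor
    · rintro ⟨x, hx, i, hi, rfl⟩
      exact ⟨(x, i), ⟨hx, hi⟩, rfl⟩
    · rintro ⟨⟨x, i⟩, ⟨hx, hi⟩, rfl⟩
      exact ⟨x, hx, i, hi, rfl⟩
  have hf : ({z | ∃ x ∈ X, ∃ i : ℕ, i ≤ M ∧ z = t ^ i * x * (t ^ i)⁻¹}).Finite := by
    rw [h]; exact (hX.prod (Set.finite_Iic M)).image _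
  exact ⟨hf.toFinset, by rw [Set.Finite.coe_toFinset]; rfl⟩

theorem FGE_map {G G' : Type u} [Group G] [Group G'] (f : G →* G') (K : Subgroup G) (h : K.FG) : (K.map f).FG := by
  classical
  obtain ⟨S, hS⟩ := h
  exact ⟨S.image f, by rw [Finset.coe_image, ← MonoidHom.map_closure, hS]⟩

theorem FGE_mono (X : Set H) (t : H) {M M' : ℕ} (h : M ≤ M') : FGE_F X t M ≤ FGE_F X t M' := by
  apply Subgroup.closure_mono
  rintro z ⟨x, hx, i, hi, rfl⟩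
  exact ⟨x, hx, i, hi.trans h, rfl⟩

theorem FGE_ex (X : Set H) (t : H) (z : H) (hz : z ∈ Up X t) : ∃ M, z ∈ FGE_F X t M := by
  unfold Up at hz
  induction hz using closure_induction with
  | mem z hz =>
    obtain ⟨x, hx, i, rfl⟩ := hz
    exact ⟨i, subset_closure ⟨x, hx, i, le_rfl, rfl⟩⟩
  | one => exact ⟨0, one_mem _⟩
  | mul a b _ _ ha hb =>
    obtain ⟨M, hM⟩ := ha
    obtain ⟨N, hN⟩ := hb
    exact ⟨max M N, mul_mem (FGE_mono X t (le_max_left _ _) hM) (FGE_mono X t (le_max_right _ _) hN)⟩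
  | inv a _ ha =>
    obtain ⟨M, hM⟩ := ha
    exact ⟨M, inv_mem hM⟩

theorem FGE_conj (t : H) (S S' : Set H) (h : ∀ z ∈ S, t * z * t⁻¹ ∈ closure S') : ∀ z ∈ closure S,
    t * z * t⁻¹ ∈ closure S' := by
  intro z hz
  induction hz using closure_induction with
  | mem z hz => exact h z hz
  | one => simp
  | mul a b _ _ ha hb =>
    have h : t * (a * b) * t⁻¹ = (t * a * t⁻¹) * (t * b * t⁻¹) := by group
    rw [h]; exact mul_mem ha hb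
  | inv a _ ha =>
    have h : t * a⁻¹ * t⁻¹ = (t * a * t⁻¹)⁻¹ := by group
    rw [h]; exact inv_mem ha

theorem FGE_A (X : Set H) (t : H) (hX : X.Finite) (h : ∀ x ∈ X, t⁻¹ * x * t ∈ Up X t) :
    ∃ M, ∀ z ∈ FGE_F X t M, ∀ k : ℕ, (t ^ k)⁻¹ * z * t ^ k ∈ FGE_F X t M := by
  have h1 : ∀ x ∈ X, ∃ M, t⁻¹ * x * t ∈ FGE_F X t M := fun x hx => FGE_ex X t _ (h x hx)
  choose! D hD using h1
  obtain ⟨M, hM⟩ : ∃ M, ∀ x ∈ X, D x ≤ M := by
    obtain ⟨M, hM⟩ := (hX.image D).bddAbove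
    exact ⟨M, fun x hx => hM ⟨x, hx, rfl⟩⟩
  have h2 : ∀ z ∈ FGE_F X t M, t⁻¹ * z * t ∈ FGE_F X t M := by
    intro z hz
    have h3 := FGE_conj t⁻¹ {z | ∃ x ∈ X, ∃ i : ℕ, i ≤ M ∧ z = t ^ i * x * (t ^ i)⁻¹}
      {z | ∃ x ∈ X, ∃ i : ℕ, i ≤ M ∧ z = t ^ i * x * (t ^ i)⁻¹} (fun z hz => ?_) z hz
    · rw [inv_inv] at h3; exact h3
    · obtain ⟨x, hx, i, hi, rfl⟩ := hz
      rw [inv_inv]
      rcases i with _ | i
      · have h9 := FGE_mono X t (hM x hx) (hD x hx)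
        have e : t⁻¹ * (t ^ 0 * x * (t ^ 0)⁻¹) * t = t⁻¹ * x * t := by group
        rw [e]; exact h9
      · refine subset_closure ⟨x, hx, i, by omega, ?_⟩
        rw [pow_succ']; group
  refine ⟨M, fun z hz k => ?_⟩
  induction k with
  | zero => simpa using hz
  | succ k ih =>
    have e : (t ^ (k + 1))⁻¹ * z * t ^ (k + 1) = t⁻¹ * ((t ^ k)⁻¹ * z * t ^ k) * t := by rw [pow_succ]; group
    rw [e]; exact h2 _ ih

theorem FGE_B (X : Set H) (t : H) (M : ℕ)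
    (h : ∀ z ∈ FGE_F X t M, ∀ k : ℕ, (t ^ k)⁻¹ * z * t ^ k ∈ FGE_F X t M) :
    ∀ z ∈ Al X t, ∃ N : ℕ, ∀ k : ℕ, N ≤ k → (t ^ k)⁻¹ * z * t ^ k ∈ FGE_F X t M := by
  intro z hz
  unfold Al at hz
  induction hz using closure_induction with
  | mem z hz =>
    obtain ⟨x, hx, i, rfl⟩ := hz
    refine ⟨i.toNat, fun k hk => ?_⟩
    obtain ⟨j, hj⟩ : ∃ j : ℕ, (k : ℤ) = i + j := ⟨((k : ℤ) - i).toNat, by omega⟩
    have h1 : x ∈ FGE_F X t M := subset_closure ⟨x, hx, 0, Nat.zero_le _, by simp⟩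
    have h2 := h x h1 j
    have e : (t ^ k)⁻¹ * (t ^ i * x * (t ^ i)⁻¹) * t ^ k = (t ^ j)⁻¹ * x * t ^ j := by
      rw [← zpow_natCast t k, hj, zpow_add, zpow_natCast]; group
    rw [e]; exact h2
  | one => exact ⟨0, fun k _ => by simp⟩
  | mul a b _ _ ha hb =>
    obtain ⟨N1, h1⟩ := ha
    obtain ⟨N2, h2⟩ := hb
    refine ⟨max N1 N2, fun k hk => ?_⟩
    have e : (t ^ k)⁻¹ * (a * b) * t ^ k = ((t ^ k)⁻¹ * a * t ^ k) * ((t ^ k)⁻¹ * b * t ^ k) := by group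
    rw [e]
    exact mul_mem (h1 k ((le_max_left _ _).trans hk)) (h2 k ((le_max_right _ _).trans hk))
  | inv a _ ha =>
    obtain ⟨N1, h1⟩ := ha
    refine ⟨N1, fun k hk => ?_⟩
    have e : (t ^ k)⁻¹ * a⁻¹ * t ^ k = ((t ^ k)⁻¹ * a * t ^ k)⁻¹ := by group
    rw [e]; exact inv_mem (h1 k hk)

end

theorem FGE : FGE_stmt.{u} := by
  intro H _ X t hX h1 h2
  obtain ⟨M, hM⟩ := FGE_A X t hX h1
  obtain ⟨M', hM'⟩ := FGE_A X t⁻¹ hX (by simpa using h2)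
  have hB := FGE_B X t M hM
  have hB' := FGE_B X t⁻¹ M' hM'
  rw [UPM_i] at hB'
  -- `F' ≤ G_N`
  obtain ⟨S, hS⟩ := FGE_fg X t⁻¹ M' hX
  have h3 : ∀ s ∈ S, ∃ N : ℕ, ∀ k : ℕ, N ≤ k → (t ^ k)⁻¹ * s * t ^ k ∈ FGE_F X t M := by
    intro s hs
    apply hB
    have h4 : s ∈ FGE_F X t⁻¹ M' := by rw [← hS]; exact subset_closure hs
    have h5 : FGE_F X t⁻¹ M' ≤ Al X t := by
      rw [← UPM_i]
      unfold FGE_F
      rw [closure_le]
      rintro z ⟨x, hx, i, -, rfl⟩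
      exact subset_closure ⟨x, hx, i, by simp⟩
    exact h5 h4
  choose! D hD using h3
  obtain ⟨N, hN⟩ : ∃ N, ∀ s ∈ S, D s ≤ N := ⟨S.sup D, fun s hs => Finset.le_sup hs⟩
  have h6 : ∀ z ∈ FGE_F X t⁻¹ M', (t ^ N)⁻¹ * z * t ^ N ∈ FGE_F X t M := by
    intro z hz
    rw [← hS] at hz
    induction hz using closure_induction with
    | mem s hs => exact hD s hs N (hN s hs)
    | one => simp
    | mul a b _ _ ha hb =>
      have e : (t ^ N)⁻¹ * (a * b) * t ^ N = ((t ^ N)⁻¹ * a * t ^ N) * ((t ^ N)⁻¹ * b * t ^ N) := by group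
      rw [e]; exact mul_mem ha hb
    | inv a _ ha =>
      have e : (t ^ N)⁻¹ * a⁻¹ * t ^ N = ((t ^ N)⁻¹ * a * t ^ N)⁻¹ := by group
      rw [e]; exact inv_mem ha
  have h7 : ∀ z ∈ Al X t, (t ^ N)⁻¹ * z * t ^ N ∈ FGE_F X t M := by
    intro z hz
    obtain ⟨j, hj⟩ := hB' z hz
    have h8 := hM _ (h6 _ (hj j le_rfl)) j
    have e : (t ^ j)⁻¹ * ((t ^ N)⁻¹ * ((t⁻¹ ^ j)⁻¹ * z * t⁻¹ ^ j) * t ^ N) * t ^ j = (t ^ N)⁻¹ * z * t ^ N := by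
      rw [inv_pow, inv_inv]
      have hc : t ^ N * t ^ j = t ^ j * t ^ N := by rw [← pow_add, ← pow_add, add_comm]
      have hc' : (t ^ j)⁻¹ * (t ^ N)⁻¹ = (t ^ N)⁻¹ * (t ^ j)⁻¹ := by rw [← mul_inv_rev, ← mul_inv_rev, hc]
      calc (t ^ j)⁻¹ * ((t ^ N)⁻¹ * (t ^ j * z * (t ^ j)⁻¹) * t ^ N) * t ^ j
          = ((t ^ j)⁻¹ * (t ^ N)⁻¹) * t ^ j * z * (t ^ j)⁻¹ * (t ^ N * t ^ j) := by group
        _ = ((t ^ N)⁻¹ * (t ^ j)⁻¹) * t ^ j * z * (t ^ j)⁻¹ * (t ^ j * t ^ N) := by rw [hc, hc']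
        _ = _ := by group
    rw [e] at h8
    exact h8
  -- `Al X t` is the image of `F_M` under conjugation by `t^N`
  have h9 : Al X t = (FGE_F X t M).map (MulAut.conj (t ^ N)).toMonoidHom := by
    apply le_antisymm
    · intro z hz
      refine ⟨(t ^ N)⁻¹ * z * t ^ N, h7 z hz, ?_⟩
      show MulAut.conj (t ^ N) ((t ^ N)⁻¹ * z * t ^ N) = z
      rw [MulAut.conj_apply]; group
    · rintro _ ⟨w, hw, rfl⟩
      show MulAut.conj (t ^ N) w ∈ Al X t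
      rw [MulAut.conj_apply]
      have h10 : FGE_F X t M ≤ Al X t := by
        unfold FGE_F
        rw [closure_le]
        rintro z ⟨x, hx, i, -, rfl⟩
        exact subset_closure ⟨x, hx, i, by simp⟩
      have := UPM_h X t N _ (h10 hw)
      simpa using this
  rw [h9]
  exact FGE_map _ _ (FGE_fg X t M hX)

end Pool.Agent.helper46.ESM
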