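import Pool.Agent.helper46.ESM.UPM

set_option autoImplicit false

/-! # ESM: rows THU, GEN, UFX, FGE -/

namespace Pool.Agent.helper46.ESM

open Subgroup Pool.Agent.helper80.EN

universe u

/-- `(h⁻¹ t h)^i = f_i t^i` -/
theorem THU_f {H : Type u} [Group H] (t h : H) (i : ℕ) :
    h⁻¹ * t ^ i * h = ((h⁻¹ * t * h * t⁻¹ * t) ^ i * (t ^ i)⁻¹) * t ^ i := by
  have : h⁻¹ * t * h * t⁻¹ * t = h⁻¹ * t * h⁻¹⁻¹ := by group
  rw [this, conj_pow, inv_inv]; group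

theorem THU0 {H : Type u} [Group H] (X : Set H) (t h : H) (C : ℕ) (hC : Dep X t C (h⁻¹ * t * h * t⁻¹))
    (hX : ∀ x ∈ X, Dep X t C (h⁻¹ * x * h)) (z : H) (hz : z ∈ Up X t) : Dep X t C (h⁻¹ * z * h) := by
  unfold Up at hz
  induction hz using closure_induction with
  | mem z hz =>
    obtain ⟨x, hx, i, rfl⟩ := hz
    have hf := FPW H X t _ C hC i
    set f := (h⁻¹ * t * h * t⁻¹ * t) ^ i * (t ^ i)⁻¹ with hfd
    have h1 : h⁻¹ * t ^ i * h = f * t ^ i := THU_f t h i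
    have h2 : h⁻¹ * (t ^ i * x * (t ^ i)⁻¹) * h = f * (t ^ i * (h⁻¹ * x * h) * (t ^ i)⁻¹) * f⁻¹ := by
      have h3 : h⁻¹ * (t ^ i)⁻¹ * h = (f * t ^ i)⁻¹ := by rw [← h1]; group
      calc h⁻¹ * (t ^ i * x * (t ^ i)⁻¹) * h = (h⁻¹ * t ^ i * h) * (h⁻¹ * x * h) * (h⁻¹ * (t ^ i)⁻¹ * h) := by group
        _ = (f * t ^ i) * (h⁻¹ * x * h) * (f * t ^ i)⁻¹ := by rw [h1, h3]
        _ = _ := by group
    rw [h2]
    exact UPM_d X t _ _ _ (UPM_d X t _ _ _ hf (UPM_f X t _ _ _ (hX x hx))) (UPM_e X t _ _ hf)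
  | one => simpa using UPM_one X t C
  | mul a b _ _ ha hb =>
    have h : h⁻¹ * (a * b) * h = (h⁻¹ * a * h) * (h⁻¹ * b * h) := by group
    rw [h]; exact UPM_d X t _ _ _ ha hb
  | inv a _ ha =>
    have h : h⁻¹ * a⁻¹ * h = (h⁻¹ * a * h)⁻¹ := by group
    rw [h]; exact UPM_e X t _ _ ha

theorem THU : THU_stmt.{u} := by
  intro H _ X t h C hC hX d z hz
  have hw := THU0 X t h C hC hX _ hz
  have hf := FPW H X t _ C hC d
  set f := (h⁻¹ * t * h * t⁻¹ * t) ^ d * (t ^ d)⁻¹ with hfd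
  have h1 : h⁻¹ * t ^ d * h = f * t ^ d := THU_f t h d
  have h3 : h⁻¹ * (t ^ d)⁻¹ * h = (f * t ^ d)⁻¹ := by rw [← h1]; group
  have h2 : Dep X t C (f⁻¹ * (h⁻¹ * (t ^ d * z * (t ^ d)⁻¹) * h) * f) :=
    UPM_d X t _ _ _ (UPM_d X t _ _ _ (UPM_e X t _ _ hf) hw) hf
  unfold Dep at h2 ⊢
  have h4 : t ^ (C + d) * (h⁻¹ * z * h) * (t ^ (C + d))⁻¹ =
      t ^ C * (f⁻¹ * (h⁻¹ * (t ^ d * z * (t ^ d)⁻¹) * h) * f) * (t ^ C)⁻¹ := by
    have h5 : h⁻¹ * (t ^ d * z * (t ^ d)⁻¹) * h = (f * t ^ d) * (h⁻¹ * z * h) * (f * t ^ d)⁻¹ := by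
      calc h⁻¹ * (t ^ d * z * (t ^ d)⁻¹) * h = (h⁻¹ * t ^ d * h) * (h⁻¹ * z * h) * (h⁻¹ * (t ^ d)⁻¹ * h) := by group
        _ = _ := by rw [h1, h3]
    rw [h5, pow_add]; group
  rw [h4]; exact h2

theorem GEN_bd {H : Type u} [Group H] (X : Set H) (t : H) (hX : X.Finite)
    (h1 : ∀ h : H, h⁻¹ * t * h * t⁻¹ ∈ Al X t) (h2 : ∀ h : H, ∀ x ∈ X, h⁻¹ * x * h ∈ Al X t) (g : H) :
    ∃ C, Dep X t C (g⁻¹ * t * g * t⁻¹) ∧ ∀ x ∈ X, Dep X t C (g⁻¹ * x * g) := by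
  obtain ⟨C0, hC0⟩ := UPM_g X t _ (h1 g)
  have h3 : ∀ x ∈ X, ∃ d, Dep X t d (g⁻¹ * x * g) := fun x hx => UPM_g X t _ (h2 g x hx)
  choose! D hD using h3
  obtain ⟨M, hM⟩ : ∃ M, ∀ x ∈ X, D x ≤ M := by
    obtain ⟨M, hM⟩ := (hX.image D).bddAbove
    exact ⟨M, fun x hx => hM ⟨x, hx, rfl⟩⟩
  exact ⟨max C0 M, UPM_c X t _ _ _ hC0 (le_max_left _ _),
    fun x hx => UPM_c X t _ _ _ (hD x hx) ((hM x hx).trans (le_max_right _ _))⟩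

theorem GEN : GEN_stmt.{u} := by
  intro H _ X t hX hgen h1 h2 h
  have hh : h ∈ closure {b : H | RightEngel b} := by rw [hgen]; exact mem_top h
  induction hh using closure_induction with
  | mem b hb =>
    obtain ⟨C, hC, -⟩ := GEN_bd X t hX h1 h2 b
    refine ⟨C, fun m hm => ?_⟩
    have h3 := BEN H X t b C m hb hC hm
    refine UPM_c X t _ 0 _ ?_ (Nat.zero_le _)
    unfold Dep; simpa using h3
  | one =>
    refine ⟨0, fun m _ => ?_⟩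
    have : com (1 : H) (t ^ m) = 1 := by unfold com; group
    rw [this]; exact UPM_one X t 0
  | mul a b _ _ ha hb =>
    obtain ⟨C1, hC1⟩ := ha
    obtain ⟨C2, hC2⟩ := hb
    obtain ⟨C3, hC3, hC3'⟩ := GEN_bd X t hX h1 h2 b
    refine ⟨C3 + C1 + C2, fun m hm => ?_⟩
    have e : com (a * b) (t ^ m) = (b⁻¹ * com a (t ^ m) * b) * com b (t ^ m) := by unfold com; group
    rw [e]
    refine UPM_d X t _ _ _ (UPM_c X t _ _ _ (THU H X t b C3 hC3 hC3' _ _ (hC1 m (by omega))) (by omega))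
      (UPM_c X t _ _ _ (hC2 m (by omega)) (by omega))
  | inv a _ ha =>
    obtain ⟨C1, hC1⟩ := ha
    obtain ⟨C3, hC3, hC3'⟩ := GEN_bd X t hX h1 h2 a⁻¹
    refine ⟨C3 + C1, fun m hm => ?_⟩
    have e : com a⁻¹ (t ^ m) = (a⁻¹)⁻¹ * (com a (t ^ m))⁻¹ * a⁻¹ := by unfold com; group
    rw [e]
    exact THU H X t a⁻¹ C3 hC3 hC3' _ _ (UPM_e X t _ _ (hC1 m (by omega)))

theorem UFX1 {H : Type u} [Group H] (X : Set H) (t : H) (hX : X.Finite) (hgen : GenRE H)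
    (h1 : ∀ h : H, h⁻¹ * t * h * t⁻¹ ∈ Al X t) (h2 : ∀ h : H, ∀ x ∈ X, h⁻¹ * x * h ∈ Al X t) :
    ∀ x ∈ X, t⁻¹ * x * t ∈ Up X t := by
  intro x hx
  obtain ⟨C, hC⟩ := GEN H X t hX hgen h1 h2 x
  have h3 := UPM_d X t x _ C (UPM_c X t x 0 C (by unfold Dep; simpa using UPM_b X t x hx) (Nat.zero_le _))
    (hC (C + 1) (by omega))
  unfold Dep at h3
  have e : t ^ C * (x * com x (t ^ (C + 1))) * (t ^ C)⁻¹ = t⁻¹ * x * t := by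
    unfold com; rw [pow_succ]; group
  rw [e] at h3
  exact h3

theorem UFX : UFX_stmt.{u} := by
  intro H _ X t hX hgen h1 h2
  refine ⟨UFX1 X t hX hgen h1 h2, fun x hx => ?_⟩
  have h3 := UFX1 X t⁻¹ hX hgen (fun h => ?_) (fun h x hx => ?_) x hx
  · simpa using h3
  · rw [UPM_i]
    have h4 := UPM_h X t (-1) _ (h1 h)
    have h5 := (Al X t).inv_mem h4
    have e : (t ^ (-1 : ℤ) * (h⁻¹ * t * h * t⁻¹) * (t ^ (-1 : ℤ))⁻¹)⁻¹ = h⁻¹ * t⁻¹ * h * t⁻¹⁻¹ := by group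
    rw [e] at h5
    exact h5
  · rw [UPM_i]; exact h2 h x hx

end Pool.Agent.helper46.ESM
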