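import Pool.Agent.helper46.ESM.Spec

set_option autoImplicit false

/-! # ESM: rows UPM, FPW, CTM, ENG, BEN -/

namespace Pool.Agent.helper46.ESM

open Subgroup Pool.Agent.helper80.EN

universe u

section

variable {H : Type u} [Group H]

theorem UPM_a (X : Set H) (t : H) (z : H) (hz : z ∈ Up X t) (i : ℕ) : t ^ i * z * (t ^ i)⁻¹ ∈ Up X t := by
  unfold Up at hz
  induction hz using closure_induction with
  | mem z hz =>
    obtain ⟨x, hx, j, rfl⟩ := hz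
    refine subset_closure ⟨x, hx, i + j, ?_⟩
    rw [pow_add]; group
  | one => simpa using (Up X t).one_mem
  | mul a b _ _ ha hb =>
    have h : t ^ i * (a * b) * (t ^ i)⁻¹ = (t ^ i * a * (t ^ i)⁻¹) * (t ^ i * b * (t ^ i)⁻¹) := by group
    rw [h]; exact (Up X t).mul_mem ha hb
  | inv a _ ha =>
    have h : t ^ i * a⁻¹ * (t ^ i)⁻¹ = (t ^ i * a * (t ^ i)⁻¹)⁻¹ := by group
    rw [h]; exact (Up X t).inv_mem ha

theorem UPM_b (X : Set H) (t : H) (x : H) (hx : x ∈ X) : x ∈ Up X t :=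
  subset_closure ⟨x, hx, 0, by simp⟩

theorem UPM_c (X : Set H) (t : H) (z : H) (d d' : ℕ) (h : Dep X t d z) (hd : d ≤ d') : Dep X t d' z := by
  obtain ⟨k, rfl⟩ := Nat.exists_eq_add_of_le hd
  have := UPM_a X t _ h k
  unfold Dep
  have e : t ^ (d + k) * z * (t ^ (d + k))⁻¹ = t ^ k * (t ^ d * z * (t ^ d)⁻¹) * (t ^ k)⁻¹ := by
    rw [add_comm d k, pow_add]; group
  rw [e]; exact this

theorem UPM_d (X : Set H) (t : H) (z w : H) (d : ℕ) (hz : Dep X t d z) (hw : Dep X t d w) : Dep X t d (z * w) := by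
  unfold Dep at *
  have h : t ^ d * (z * w) * (t ^ d)⁻¹ = (t ^ d * z * (t ^ d)⁻¹) * (t ^ d * w * (t ^ d)⁻¹) := by group
  rw [h]; exact (Up X t).mul_mem hz hw

theorem UPM_e (X : Set H) (t : H) (z : H) (d : ℕ) (hz : Dep X t d z) : Dep X t d z⁻¹ := by
  unfold Dep at *
  have h : t ^ d * z⁻¹ * (t ^ d)⁻¹ = (t ^ d * z * (t ^ d)⁻¹)⁻¹ := by group
  rw [h]; exact (Up X t).inv_mem hz

theorem UPM_f (X : Set H) (t : H) (z : H) (d i : ℕ) (hz : Dep X t d z) : Dep X t d (t ^ i * z * (t ^ i)⁻¹) := by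
  have h1 := UPM_a X t _ hz i
  unfold Dep at *
  have h : t ^ d * (t ^ i * z * (t ^ i)⁻¹) * (t ^ d)⁻¹ = t ^ i * (t ^ d * z * (t ^ d)⁻¹) * (t ^ i)⁻¹ := by
    have : t ^ d * t ^ i = t ^ i * t ^ d := by rw [← pow_add, ← pow_add, add_comm]
    have h2 : (t ^ i)⁻¹ * (t ^ d)⁻¹ = (t ^ d)⁻¹ * (t ^ i)⁻¹ := by rw [← mul_inv_rev, ← mul_inv_rev, this]
    calc t ^ d * (t ^ i * z * (t ^ i)⁻¹) * (t ^ d)⁻¹ = (t ^ d * t ^ i) * z * ((t ^ i)⁻¹ * (t ^ d)⁻¹) := by group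
      _ = (t ^ i * t ^ d) * z * ((t ^ d)⁻¹ * (t ^ i)⁻¹) := by rw [this, h2]
      _ = _ := by group
  rw [h]; exact h1

theorem UPM_one (X : Set H) (t : H) (d : ℕ) : Dep X t d 1 := by
  unfold Dep; simpa using (Up X t).one_mem

theorem UPM_g (X : Set H) (t : H) (z : H) (hz : z ∈ Al X t) : ∃ d, Dep X t d z := by
  unfold Al at hz
  induction hz using closure_induction with
  | mem z hz =>
    obtain ⟨x, hx, j, rfl⟩ := hz
    refine ⟨j.natAbs, ?_⟩
    unfold Dep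
    obtain ⟨k, hk⟩ : ∃ k : ℕ, (j.natAbs : ℤ) + j = k := ⟨((j.natAbs : ℤ) + j).toNat, by omega⟩
    refine subset_closure ⟨x, hx, k, ?_⟩
    have h1 : t ^ k = t ^ j.natAbs * t ^ j := by
      rw [← zpow_natCast t k, ← hk, zpow_add, zpow_natCast]
    rw [h1]; group
  | one => exact ⟨0, UPM_one X t 0⟩
  | mul a b _ _ ha hb =>
    obtain ⟨d, hd⟩ := ha
    obtain ⟨e, he⟩ := hb
    exact ⟨max d e, UPM_d X t _ _ _ (UPM_c X t _ _ _ hd (le_max_left _ _)) (UPM_c X t _ _ _ he (le_max_right _ _))⟩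
  | inv a _ ha =>
    obtain ⟨d, hd⟩ := ha
    exact ⟨d, UPM_e X t _ _ hd⟩

theorem UPM_h1 (X : Set H) (t : H) : Up X t ≤ Al X t := by
  unfold Up
  rw [closure_le]
  rintro z ⟨x, hx, i, rfl⟩
  exact subset_closure ⟨x, hx, i, by simp⟩

theorem UPM_h (X : Set H) (t : H) (n : ℤ) (z : H) (hz : z ∈ Al X t) : t ^ n * z * (t ^ n)⁻¹ ∈ Al X t := by
  unfold Al at hz
  induction hz using closure_induction with
  | mem z hz =>
    obtain ⟨x, hx, j, rfl⟩ := hz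
    refine subset_closure ⟨x, hx, n + j, ?_⟩
    rw [zpow_add]; group
  | one => simpa using (Al X t).one_mem
  | mul a b _ _ ha hb =>
    have h : t ^ n * (a * b) * (t ^ n)⁻¹ = (t ^ n * a * (t ^ n)⁻¹) * (t ^ n * b * (t ^ n)⁻¹) := by group
    rw [h]; exact (Al X t).mul_mem ha hb
  | inv a _ ha =>
    have h : t ^ n * a⁻¹ * (t ^ n)⁻¹ = (t ^ n * a * (t ^ n)⁻¹)⁻¹ := by group
    rw [h]; exact (Al X t).inv_mem ha

theorem UPM_i (X : Set H) (t : H) : Al X t⁻¹ = Al X t := by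
  unfold Al
  congr 1
  ext z
  constructor
  · rintro ⟨x, hx, i, rfl⟩
    exact ⟨x, hx, -i, by rw [zpow_neg, inv_zpow]⟩
  · rintro ⟨x, hx, i, rfl⟩
    exact ⟨x, hx, -i, by rw [zpow_neg, inv_zpow, inv_inv]⟩

end

theorem UPM : UPM_stmt.{u} := by
  intro H _ X t
  refine ⟨fun z hz i => UPM_a X t z hz i, fun x hx => UPM_b X t x hx, fun z d d' h1 h2 => UPM_c X t z d d' h1 h2,
    fun z w d h1 h2 => UPM_d X t z w d h1 h2, fun z d h => UPM_e X t z d h, fun z d i h => UPM_f X t z d i h,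
    fun z hz => UPM_g X t z hz, ⟨UPM_h1 X t, fun z hz => ?_, fun z hz => ?_⟩, UPM_i X t⟩
  · simpa using UPM_h X t 1 z hz
  · simpa using UPM_h X t (-1) z hz

theorem FPW : FPW_stmt.{u} := by
  intro H _ X t e C he m
  induction m with
  | zero => simpa using UPM_one X t C
  | succ m ih =>
    have h : (e * t) ^ (m + 1) * (t ^ (m + 1))⁻¹ = ((e * t) ^ m * (t ^ m)⁻¹) * (t ^ m * e * (t ^ m)⁻¹) := by
      rw [pow_succ, pow_succ]; group
    rw [h]
    exact UPM_d X t _ _ _ ih (UPM_f X t _ _ _ he)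

theorem CTM : CTM_stmt.{u} := by
  intro H _ X t b C hb m
  have hf := UPM_e X t _ _ (FPW H X t _ C hb m)
  have h1 : (b⁻¹ * t * b * t⁻¹ * t) ^ m = b⁻¹ * t ^ m * b := by
    have : b⁻¹ * t * b * t⁻¹ * t = b⁻¹ * t * b⁻¹⁻¹ := by group
    rw [this, conj_pow, inv_inv]
  rw [h1] at hf
  unfold Dep at hf ⊢
  have h2 : t ^ (m + C) * com b (t ^ m) * (t ^ (m + C))⁻¹ = t ^ C * (b⁻¹ * t ^ m * b * (t ^ m)⁻¹)⁻¹ * (t ^ C)⁻¹ := by
    unfold com
    rw [add_comm m C, pow_add]; group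
  rw [h2]; exact hf

theorem ENG_step {G : Type u} [Group G] (c T : G) (n : ℕ) :
    ∃ p ∈ closure {z : G | ∃ i : ℕ, i < n ∧ z = (T ^ i)⁻¹ * c * T ^ i}, icom c T n = p * ((T ^ n)⁻¹ * c * T ^ n) := by
  induction n with
  | zero => exact ⟨1, one_mem _, by simp [icom]⟩
  | succ n ih =>
    obtain ⟨p, hp, hi⟩ := ih
    have hsub : closure {z : G | ∃ i : ℕ, i < n ∧ z = (T ^ i)⁻¹ * c * T ^ i} ≤
        closure {z : G | ∃ i : ℕ, i < n + 1 ∧ z = (T ^ i)⁻¹ * c * T ^ i} := by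
      apply Subgroup.closure_mono
      rintro z ⟨i, hi, rfl⟩
      exact ⟨i, by omega, rfl⟩
    have hTp : T⁻¹ * p * T ∈ closure {z : G | ∃ i : ℕ, i < n + 1 ∧ z = (T ^ i)⁻¹ * c * T ^ i} := by
      clear hi
      induction hp using closure_induction with
      | mem z hz =>
        obtain ⟨i, hi, rfl⟩ := hz
        refine subset_closure ⟨i + 1, by omega, ?_⟩
        rw [pow_succ]; group
      | one => simpa using one_mem _
      | mul a b _ _ ha hb =>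
        have h : T⁻¹ * (a * b) * T = (T⁻¹ * a * T) * (T⁻¹ * b * T) := by group
        rw [h]; exact mul_mem ha hb
      | inv a _ ha =>
        have h : T⁻¹ * a⁻¹ * T = (T⁻¹ * a * T)⁻¹ := by group
        rw [h]; exact inv_mem ha
    have hcn : (T ^ n)⁻¹ * c * T ^ n ∈ closure {z : G | ∃ i : ℕ, i < n + 1 ∧ z = (T ^ i)⁻¹ * c * T ^ i} :=
      subset_closure ⟨n, by omega, rfl⟩
    refine ⟨(p * ((T ^ n)⁻¹ * c * T ^ n))⁻¹ * (T⁻¹ * p * T), mul_mem (inv_mem (mul_mem (hsub hp) hcn)) hTp, ?_⟩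
    show com (icom c T n) T = _
    rw [hi]
    unfold com
    rw [pow_succ]; group

theorem ENG : ENG_stmt.{u} := by
  intro G _ b T V ⟨n, hn⟩ hV
  set c := com b T with hc
  have h1 : icom c T n = 1 := by
    have h2 : ∀ k, icom c T k = icom b T (k + 1) := by
      intro k
      induction k with
      | zero => rfl
      | succ k ih =>
        show com (icom c T k) T = com (icom b T (k + 1)) T
        rw [ih]
    rw [h2]
    show com (icom b T n) T = 1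
    rw [hn]; unfold com; group
  obtain ⟨p, hp, hi⟩ := ENG_step c T n
  rw [h1] at hi
  -- conjugate by `T ^ n`
  have hconj : ∀ (k : ℕ) (S S' : Set G), (∀ z ∈ S, T ^ k * z * (T ^ k)⁻¹ ∈ closure S') → ∀ z ∈ closure S,
      T ^ k * z * (T ^ k)⁻¹ ∈ closure S' := by
    intro k S S' h z hz
    induction hz using closure_induction with
    | mem z hz => exact h z hz
    | one => simpa using one_mem _
    | mul a b _ _ ha hb =>
      have h : T ^ k * (a * b) * (T ^ k)⁻¹ = (T ^ k * a * (T ^ k)⁻¹) * (T ^ k * b * (T ^ k)⁻¹) := by group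
      rw [h]; exact mul_mem ha hb
    | inv a _ ha =>
      have h : T ^ k * a⁻¹ * (T ^ k)⁻¹ = (T ^ k * a * (T ^ k)⁻¹)⁻¹ := by group
      rw [h]; exact inv_mem ha
  have hc1 : c ∈ closure {z : G | ∃ j : ℕ, 1 ≤ j ∧ z = T ^ j * c * (T ^ j)⁻¹} := by
    have h3 : T ^ n * p * (T ^ n)⁻¹ ∈ closure {z : G | ∃ j : ℕ, 1 ≤ j ∧ z = T ^ j * c * (T ^ j)⁻¹} := by
      refine hconj n _ _ ?_ p hp
      rintro z ⟨i, hi', rfl⟩
      obtain ⟨k, rfl⟩ := Nat.exists_eq_add_of_lt hi'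
      refine subset_closure ⟨k + 1, by omega, ?_⟩
      have : T ^ (i + k + 1) = T ^ (k + 1) * T ^ i := by rw [← pow_add]; congr 1; omega
      rw [this]; group
    have h4 : c = (T ^ n * p * (T ^ n)⁻¹)⁻¹ := by
      have : p⁻¹ = (T ^ n)⁻¹ * c * T ^ n := by rw [inv_eq_iff_mul_eq_one, ← hi]
      calc c = T ^ n * ((T ^ n)⁻¹ * c * T ^ n) * (T ^ n)⁻¹ := by group
        _ = T ^ n * p⁻¹ * (T ^ n)⁻¹ := by rw [this]
        _ = _ := by group
    have h5 := inv_mem h3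
    rwa [← h4] at h5
  -- `V0 = V1`, so `V1 = V2`
  have hV2 : ∀ z ∈ closure {z : G | ∃ j : ℕ, 1 ≤ j ∧ z = T ^ j * c * (T ^ j)⁻¹},
      T ^ 1 * z * (T ^ 1)⁻¹ ∈ closure {z : G | ∃ j : ℕ, 2 ≤ j ∧ z = T ^ j * c * (T ^ j)⁻¹} := by
    refine hconj 1 _ _ ?_
    rintro z ⟨j, hj, rfl⟩
    refine subset_closure ⟨j + 1, by omega, ?_⟩
    rw [pow_succ' T j]; group
  have hc2 : T * c * T⁻¹ ∈ closure {z : G | ∃ j : ℕ, 2 ≤ j ∧ z = T ^ j * c * (T ^ j)⁻¹} := by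
    simpa using hV2 c hc1
  have hle : closure {z : G | ∃ j : ℕ, 1 ≤ j ∧ z = T ^ j * c * (T ^ j)⁻¹} ≤
      closure {z : G | ∃ j : ℕ, 2 ≤ j ∧ z = T ^ j * c * (T ^ j)⁻¹} := by
    rw [closure_le]
    rintro z ⟨j, hj, rfl⟩
    rcases Nat.lt_or_ge j 2 with h | h
    · have : j = 1 := by omega
      subst this
      simpa using hc2
    · exact subset_closure ⟨j, h, rfl⟩
  have hfin : closure {z : G | ∃ j : ℕ, 2 ≤ j ∧ z = T ^ j * c * (T ^ j)⁻¹} ≤ V := by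
    rw [closure_le]
    rintro z ⟨j, hj, rfl⟩
    exact hV j hj
  exact hfin (hle hc1)

theorem BEN : BEN_stmt.{u} := by
  intro H _ X t b C m hb hC hm
  refine ENG H b (t ^ m) (Up X t) (hb _) fun j hj => ?_
  have h1 := UPM_c X t _ _ (m * j) (CTM H X t b C hC m) (by nlinarith)
  unfold Dep at h1
  rw [← pow_mul]
  exact h1

end Pool.Agent.helper46.ESM
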